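import Pool.Agent.Helper36.RN.Goals
import Pool.Agent.Helper7.RFn.C11

/-! # Packet CMS (project RFn, existence part): completeness and interpolation -/

set_option autoImplicit false

namespace Pool.Agent.Helper61.RN

open Set Filter Topology MeasureTheory Pool.Agent.Helper47.RFn Pool.Agent.Helper36.RN
open scoped ContDiff

variable {n : ℕ}

theorem sn_Wd (m : ℕ) (w : List (KK n)) (u : XS n) : sn m (Wd w u) ≤ sn (m + w.length) u := by
  induction w generalizing m with
  | nil => exact le_refl _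
  | cons i w ih =>
    rw [Wd_cons]
    refine (sn_Ld m i _).trans ((ih (m + 1)).trans (le_of_eq ?_))
    congr 1
    rw [List.length_cons]
    omega

/-- iterated integration by parts -/
theorem ibpw (w : List (KK n)) (u v : XS n) :
    ip (Wd w u) v = (-1) ^ w.length * ip u (Wd w.reverse v) := by
  induction w generalizing v with
  | nil => simp
  | cons i w ih =>
    rw [Wd_cons, ibp, ih, List.reverse_cons, Wd_append, List.length_cons]
    simp only [Wd_cons, Wd_nil]
    ring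

theorem interp (m : ℕ) (u : XS n) :
    (sn m u) ^ 2 ≤ ((Wle (n := n) m).card : ℝ) ^ 2 * sn 0 u * sn (2 * m) u := by
  have h1 : ∀ w ∈ Wle m, ip (Wd w u) (Wd w u) ≤ √(sn 0 u * sn (2 * m) u) := by
    intro w hw
    rw [mem_Wle] at hw
    apply Real.le_sqrt_of_sq_le
    have h2 : ip (Wd w u) (Wd w u) ^ 2 = ip u (Wd (w.reverse ++ w) u) ^ 2 := by
      rw [ibpw, Wd_append, mul_pow, ← pow_mul, mul_comm w.length 2, pow_mul]
      norm_num
    rw [h2, sn_zero]
    refine (cs_ip _ _).trans (mul_le_mul_of_nonneg_left ?_ (ip_nonneg _))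
    apply ip_Wd_le
    rw [List.length_append, List.length_reverse]
    omega
  have h3 : sn m u ≤ (Wle (n := n) m).card * √(sn 0 u * sn (2 * m) u) := by
    rw [sn_eq, ← nsmul_eq_mul]
    exact Finset.sum_le_card_nsmul _ _ _ h1
  have h4 : 0 ≤ sn 0 u * sn (2 * m) u := mul_nonneg (sn_nonneg _ _) (sn_nonneg _ _)
  calc (sn m u) ^ 2 ≤ ((Wle (n := n) m).card * √(sn 0 u * sn (2 * m) u)) ^ 2 :=
        pow_le_pow_left₀ (sn_nonneg _ _) h3 2
    _ = _ := by rw [mul_pow, Real.sq_sqrt h4]; ring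

/-- the sup norm bounds the square integral -/
theorem ip_le (u : XS n) (ε : ℝ) (h : ∀ z, |u.1 z| ≤ ε) :
    ip u u ≤ ε ^ 2 * ip (1 : XS n) 1 := by
  have h1 : ip u u ≤ ip (ε • (1 : XS n)) (ε • (1 : XS n)) := by
    refine ip_mono fun z => ?_
    rw [smul_val, one_val, mul_one]
    have h2 := h z
    have h3 : u.1 z * u.1 z = |u.1 z| ^ 2 := by rw [sq_abs]; ring
    rw [h3, ← pow_two]
    exact pow_le_pow_left₀ (abs_nonneg _) h2 2
  refine h1.trans (le_of_eq ?_)
  simp only [map_smul, LinearMap.smul_apply, smul_eq_mul]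
  ring

/-- derivative of a smooth function along a line through a nonzero point -/
theorem der (f : EE n → ℝ) (hf : Sm f) (i : Fin (n + 1)) (z : EE n) (s : ℝ)
    (hy : z + s • (‖z‖ • EuclideanSpace.single i (1 : ℝ)) ≠ 0) :
    HasDerivAt (fun s : ℝ => f (z + s • (‖z‖ • EuclideanSpace.single i (1 : ℝ))))
      (‖z‖ / ‖z + s • (‖z‖ • EuclideanSpace.single i (1 : ℝ))‖ *
        ed i f (z + s • (‖z‖ • EuclideanSpace.single i (1 : ℝ)))) s := by
  have h1 : HasFDerivAt f (fderiv ℝ f (z + s • (‖z‖ • EuclideanSpace.single i (1 : ℝ))))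
      (z + s • (‖z‖ • EuclideanSpace.single i (1 : ℝ))) := by
    have h2 : ContDiffAt ℝ ((⊤ : ℕ∞) : WithTop ℕ∞) f
        (z + s • (‖z‖ • EuclideanSpace.single i (1 : ℝ))) :=
      hf.cd.contDiffAt (isOpen_compl_singleton.mem_nhds hy)
    exact (h2.differentiableAt (by simp)).hasFDerivAt
  have h3 : HasDerivAt (fun s : ℝ => z + s • (‖z‖ • EuclideanSpace.single i (1 : ℝ)))
      (‖z‖ • EuclideanSpace.single i (1 : ℝ)) s := by
    have h4 := ((hasDerivAt_id s).smul_const (‖z‖ • (EuclideanSpace.single i (1 : ℝ) : EE n)))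
    rw [one_smul] at h4
    exact h4.const_add z
  have h4 := h1.comp_hasDerivAt s h3
  refine h4.congr_deriv ?_
  rw [map_smul, smul_eq_mul, ed, pd]
  have hn : ‖z + s • (‖z‖ • EuclideanSpace.single i (1 : ℝ))‖ ≠ 0 := norm_ne_zero_iff.2 hy
  field_simp

theorem cms : G_CMS := by
  intro hS hWCV n
  refine ⟨fun x hx => ?_, fun m => ⟨_, interp m⟩⟩
  obtain ⟨C, hC⟩ := hS n
  obtain ⟨-, -, hW3, hW4⟩ := hWCV n
  -- uniform Cauchy property
  have hU : ∀ w : List (Fin (n + 1)), ∀ ε > 0, ∃ n0, ∀ N ≥ n0, ∀ k ≥ n0, ∀ z : Om n,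
      |(We w (x N)).1 z - (We w (x k)).1 z| ≤ ε := by
    intro w ε hε
    obtain ⟨K, hK⟩ := hW3 w
    set c : ℝ := ((Wle (n := n) w.length).card : ℝ) with hc
    obtain ⟨n0, h0⟩ := hx (n + 1 + w.length) (ε ^ 2 / (|K| * (c * |C|) + 1)) (by positivity)
    refine ⟨n0, fun N hN k hk z => ?_⟩
    have h1 := hK (x N - x k) z
    have h3 := h0 N hN k hk
    have h4 : (We w (x N - x k)).1 z = (We w (x N)).1 z - (We w (x k)).1 z := by
      rw [map_sub]
      rfl
    rw [h4] at h1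
    have h5 : ∑ w' ∈ Wle w.length, (Wd w' (x N - x k)).1 z ^ 2 ≤
        c * (|C| * sn (n + 1 + w.length) (x N - x k)) := by
      rw [hc, ← nsmul_eq_mul]
      refine Finset.sum_le_card_nsmul _ _ _ fun w' hw' => ?_
      rw [mem_Wle] at hw'
      refine (hC _ z).trans ?_
      have h6 := (sn_Wd (n + 1) w' (x N - x k)).trans
        (sn_mono (show n + 1 + w'.length ≤ n + 1 + w.length by omega) _)
      have h7 := sn_nonneg (n + 1) (Wd w' (x N - x k))
      calc C * sn (n + 1) (Wd w' (x N - x k)) ≤ |C| * sn (n + 1) (Wd w' (x N - x k)) :=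
            mul_le_mul_of_nonneg_right (le_abs_self C) h7
        _ ≤ |C| * sn (n + 1 + w.length) (x N - x k) :=
            mul_le_mul_of_nonneg_left h6 (abs_nonneg C)
    have h6 : 0 ≤ ∑ w' ∈ Wle w.length, (Wd w' (x N - x k)).1 z ^ 2 :=
      Finset.sum_nonneg fun _ _ => sq_nonneg _
    have hc0 : 0 ≤ c := Nat.cast_nonneg _
    have h7 : ((We w (x N)).1 z - (We w (x k)).1 z) ^ 2 ≤ ε ^ 2 := by
      calc ((We w (x N)).1 z - (We w (x k)).1 z) ^ 2
          ≤ K * ∑ w' ∈ Wle w.length, (Wd w' (x N - x k)).1 z ^ 2 := h1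
        _ ≤ |K| * ∑ w' ∈ Wle w.length, (Wd w' (x N - x k)).1 z ^ 2 :=
            mul_le_mul_of_nonneg_right (le_abs_self K) h6
        _ ≤ |K| * (c * (|C| * sn (n + 1 + w.length) (x N - x k))) :=
            mul_le_mul_of_nonneg_left h5 (abs_nonneg K)
        _ = (|K| * (c * |C|)) * sn (n + 1 + w.length) (x N - x k) := by ring
        _ ≤ (|K| * (c * |C|) + 1) * (ε ^ 2 / (|K| * (c * |C|) + 1)) := by
            refine mul_le_mul (by linarith) h3 (sn_nonneg _ _) (by positivity)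
        _ = ε ^ 2 := by field_simp
    exact abs_le_of_sq_le_sq h7 hε.le
  -- pointwise limits
  have hL : ∀ (w : List (Fin (n + 1))) (z : EE n), ∃ a : ℝ, (∀ hz : z ≠ 0,
      Tendsto (fun N => (We w (x N)).1 ⟨z, hz⟩) atTop (𝓝 a)) ∧ (z = 0 → a = 0) := by
    intro w z
    by_cases hz : z = 0
    · exact ⟨0, fun h => absurd hz h, fun _ => rfl⟩
    · have h1 : CauchySeq (fun N => (We w (x N)).1 ⟨z, hz⟩) := by
        rw [Metric.cauchySeq_iff]
        intro ε hε
        obtain ⟨n0, h0⟩ := hU w (ε / 2) (by positivity)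
        refine ⟨n0, fun N hN k hk => ?_⟩
        rw [Real.dist_eq]
        have := h0 N hN k hk ⟨z, hz⟩
        linarith
      obtain ⟨a, ha⟩ := cauchySeq_tendsto_of_complete h1
      exact ⟨a, fun _ => ha, fun h => absurd h hz⟩
  choose F hF using hL
  have hFU : ∀ w, ∀ ε > 0, ∃ n0, ∀ N ≥ n0, ∀ z : Om n, |F w z.1 - (We w (x N)).1 z| ≤ ε := by
    intro w ε hε
    obtain ⟨n0, h0⟩ := hU w ε hε
    refine ⟨n0, fun N hN z => ?_⟩
    have h2 : Tendsto (fun k => |(We w (x k)).1 z - (We w (x N)).1 z|) atTop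
        (𝓝 |(F w z.1) - (We w (x N)).1 z|) :=
      (((hF w z.1).1 z.2).sub_const _).abs
    refine le_of_tendsto h2 ?_
    filter_upwards [eventually_ge_atTop n0] with k hk
    exact h0 k hk N hN z
  have hFU' : ∀ w, TendstoUniformlyOn (fun N => ext (We w (x N)).1) (F w) atTop {0}ᶜ := by
    intro w
    rw [Metric.tendstoUniformlyOn_iff]
    intro ε hε
    obtain ⟨n0, h0⟩ := hFU w (ε / 2) (by positivity)
    filter_upwards [eventually_ge_atTop n0] with N hN z hz
    have h1 := h0 N hN ⟨z, hz⟩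
    rw [Real.dist_eq, ext_of_ne _ hz]
    linarith
  have hHom : ∀ w, Hom0 (F w) := by
    intro w r z hr
    by_cases hz : z = 0
    · rw [hz, smul_zero]
    · have hrz : r • z ≠ 0 := smul_ne_zero hr.ne' hz
      refine tendsto_nhds_unique ((hF w _).1 hrz) ?_
      refine ((hF w z).1 hz).congr fun N => ?_
      rw [← ext_apply (We w (x N)).1 ⟨z, hz⟩, ← ext_apply (We w (x N)).1 ⟨r • z, hrz⟩]
      exact ((We w (x N)).2.hom r z hr).symm
  have hCont : ∀ w, ContinuousOn (F w) {0}ᶜ := by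
    intro w
    refine (hFU' w).continuousOn (Eventually.of_forall fun N => ?_).frequently
    exact (We w (x N)).2.cd.continuousOn
  have hDer : ∀ (w : List (Fin (n + 1))) (i : Fin (n + 1)) (z : EE n), z ≠ 0 →
      HasDerivAt (fun s : ℝ => F w (z + s • (‖z‖ • EuclideanSpace.single i (1:ℝ))))
        (F (i :: w) z) 0 := by
    intro w i z hz
    have hz0 : 0 < ‖z‖ := norm_pos_iff.2 hz
    set Y : ℝ → EE n := fun s => z + s • (‖z‖ • EuclideanSpace.single i (1:ℝ)) with hY
    have hYn : ∀ s ∈ Metric.ball (0 : ℝ) (1 / 2), ‖z‖ / 2 ≤ ‖Y s‖ := by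
      intro s hs
      rw [mem_ball_zero_iff, Real.norm_eq_abs] at hs
      have h1 : ‖s • (‖z‖ • (EuclideanSpace.single i (1:ℝ) : EE n))‖ = |s| * ‖z‖ := by
        rw [norm_smul, norm_smul, Real.norm_eq_abs, norm_norm]
        simp
      have h2 : ‖z‖ ≤ ‖Y s‖ + ‖s • (‖z‖ • (EuclideanSpace.single i (1:ℝ) : EE n))‖ := by
        have h3 : z = Y s - s • (‖z‖ • (EuclideanSpace.single i (1:ℝ) : EE n)) := by
          rw [hY]
          simp
        conv_lhs => rw [h3]
        exact norm_sub_le _ _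
      rw [h1] at h2
      nlinarith
    have hY0 : ∀ s ∈ Metric.ball (0 : ℝ) (1 / 2), Y s ≠ 0 := fun s hs =>
      norm_pos_iff.1 (lt_of_lt_of_le (by linarith) (hYn s hs))
    have h1 : TendstoUniformlyOn
        (fun N (s : ℝ) => ‖z‖ / ‖Y s‖ * ed i (ext (We w (x N)).1) (Y s))
        (fun s : ℝ => ‖z‖ / ‖Y s‖ * F (i :: w) (Y s)) atTop (Metric.ball (0 : ℝ) (1 / 2)) := by
      rw [Metric.tendstoUniformlyOn_iff]
      intro ε hε
      obtain ⟨n0, h0⟩ := hFU (i :: w) (ε / 4) (by positivity)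
      filter_upwards [eventually_ge_atTop n0] with N hN s hs
      have h2 := h0 N hN ⟨Y s, hY0 s hs⟩
      rw [We_cons, Ee_apply] at h2
      have h3 : ‖z‖ / ‖Y s‖ ≤ 2 := by
        rw [div_le_iff₀ (norm_pos_iff.2 (hY0 s hs))]
        linarith [hYn s hs]
      have h4 : 0 ≤ ‖z‖ / ‖Y s‖ := by positivity
      rw [Real.dist_eq, ← mul_sub, abs_mul, abs_of_nonneg h4]
      calc ‖z‖ / ‖Y s‖ * |F (i :: w) (Y s) - ed i (ext (We w (x N)).1) (Y s)|
          ≤ 2 * (ε / 4) := mul_le_mul h3 h2 (abs_nonneg _) (by norm_num)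
        _ < ε := by linarith
    have h2 := hasDerivAt_of_tendstoUniformlyOn
      (f := fun N (s : ℝ) => ext (We w (x N)).1 (Y s))
      (g := fun s : ℝ => F w (Y s)) Metric.isOpen_ball h1
      (Eventually.of_forall fun N s hs => der _ (We w (x N)).2 i z s (hY0 s hs))
      (fun s hs => by
        have h3 := (hF w (Y s)).1 (hY0 s hs)
        refine h3.congr fun N => ?_
        rw [ext_of_ne _ (hY0 s hs)])
      (Metric.mem_ball_self (by norm_num))
    refine h2.congr_deriv ?_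
    have h3 : Y 0 = z := by rw [hY]; simp
    rw [h3, div_self hz0.ne', one_mul]
  obtain ⟨hy, hyw⟩ := goal_C11' n F hHom hCont hDer
  set y : XS n := toXS (F []) hy with hydef
  have hWy : ∀ w (z : Om n), (We w y).1 z = F w z.1 := by
    intro w z
    rw [We_val, ← hyw w z.1 z.2]
    exact Ew_congr (fun v hv => by rw [hydef, ext_toXS (F []) hy hv]) w z.1 z.2
  refine ⟨y, fun m => ?_⟩
  have hlimW : ∀ w : List (Fin (n + 1)), ∀ ε > 0, ∃ n0, ∀ N ≥ n0, ∀ z : Om n,
      (We w (x N - y)).1 z ^ 2 ≤ ε := by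
    intro w ε hε
    obtain ⟨n0, h0⟩ := hFU w (√ε) (Real.sqrt_pos.2 hε)
    refine ⟨n0, fun N hN z => ?_⟩
    have h1 := h0 N hN z
    have h2 : (We w (x N - y)).1 z = (We w (x N)).1 z - F w z.1 := by
      rw [map_sub, sub_val, hWy]
    rw [h2, ← sq_abs, abs_sub_comm, ← Real.sq_sqrt hε.le]
    exact pow_le_pow_left₀ (abs_nonneg _) h1 2
  have hlim : ∀ w : List (KK n), Tendsto (fun N => ip (Wd w (x N - y)) (Wd w (x N - y)))
      atTop (𝓝 0) := by
    intro w
    obtain ⟨K, hK⟩ := hW4 w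
    rw [Metric.tendsto_atTop]
    intro ε hε
    set V := ip (1 : XS n) 1 with hV
    have hV0 : 0 ≤ V := ip_nonneg 1
    set c : ℝ := ((Wn (Fin (n + 1)) w.length).card : ℝ) with hc
    have hc0 : 0 ≤ c := Nat.cast_nonneg _
    set δ : ℝ := ε / (2 * (|K| * c * V + 1)) with hδ
    have hδ0 : 0 < δ := by positivity
    have h1 : ∃ n0, ∀ N ≥ n0, ∀ w' ∈ Wn (Fin (n + 1)) w.length, ∀ z : Om n,
        (We w' (x N - y)).1 z ^ 2 ≤ δ := by
      choose M hM using hlimW
      refine ⟨(Wn (Fin (n + 1)) w.length).sup fun w' => M w' δ hδ0, fun N hN w' hw' z => ?_⟩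
      exact hM w' δ hδ0 N (le_trans (Finset.le_sup (f := fun w' => M w' δ hδ0) hw') hN) z
    obtain ⟨n0, h0⟩ := h1
    refine ⟨n0, fun N hN => ?_⟩
    rw [Real.dist_eq, sub_zero, abs_of_nonneg (ip_nonneg _)]
    have h2 := ip_le (Wd w (x N - y)) (√(|K| * (c * δ))) (fun z => by
      apply Real.abs_le_sqrt
      refine (hK (x N - y) z).trans ?_
      have h3 : ∑ w' ∈ Wn (Fin (n + 1)) w.length, (We w' (x N - y)).1 z ^ 2 ≤ c * δ := by
        rw [hc, ← nsmul_eq_mul]
        exact Finset.sum_le_card_nsmul _ _ _ fun w' hw' => h0 N hN w' hw' z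
      have h4 : 0 ≤ ∑ w' ∈ Wn (Fin (n + 1)) w.length, (We w' (x N - y)).1 z ^ 2 :=
        Finset.sum_nonneg fun _ _ => sq_nonneg _
      exact (mul_le_mul_of_nonneg_right (le_abs_self K) h4).trans
        (mul_le_mul_of_nonneg_left h3 (abs_nonneg K)))
    rw [Real.sq_sqrt (by positivity), ← hV] at h2
    have h4 : |K| * (c * δ) * V < ε := by
      have h5 : |K| * (c * δ) * V = (|K| * c * V) * δ := by ring
      rw [h5, hδ, ← mul_div_assoc, div_lt_iff₀ (by positivity)]
      have h6 : 0 ≤ |K| * c * V := by positivity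
      nlinarith
    linarith
  have h5 : Tendsto (fun N => ∑ w ∈ Wle m, ip (Wd w (x N - y)) (Wd w (x N - y))) atTop
      (𝓝 (∑ w ∈ Wle (n := n) m, (0 : ℝ))) := tendsto_finsetSum _ fun w _ => hlim w
  rw [Finset.sum_const_zero] at h5
  refine h5.congr fun N => ?_
  rw [sn_eq]

end Pool.Agent.Helper61.RN
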