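import Pool.Agent.Helper36.RN.Goals

/-!
# Project RFn, existence part, packet SCY: the scale of the spaces `ι → XS n`
-/

set_option autoImplicit false

namespace Pool.Agent.Helper61.RN

open Set Filter Topology MeasureTheory Pool.Agent.Helper47.RFn Pool.Agent.Helper36.EV
open Pool.Agent.Helper36.RN
open scoped ContDiff

variable {n : ℕ}

/-- Commutation with words. -/
lemma wd_comm {J : LL n →ₗ[ℝ] XS n} (hJ : ∀ p u, Ld p (J (io u)) = J (io (Ld p u)))
    (w : List (KK n)) (u : XS n) : Wd w (J (io u)) = J (io (Wd w u)) := by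
  induction w with
  | nil => rfl
  | cons i w ih => rw [Wd_cons, Wd_cons, ih, hJ]

lemma bf_sym {J : LL n →ₗ[ℝ] XS n} (hJ : ∀ p u, Ld p (J (io u)) = J (io (Ld p u)))
    (hs : ∀ u v, ip (J (io u)) v = ip u (J (io v))) (m : ℕ) (u v : XS n) :
    bf m (J (io u)) v = bf m u (J (io v)) := by
  rw [bf_apply, bf_apply]
  refine Finset.sum_congr rfl fun w _ => ?_
  rw [wd_comm hJ w u, hs, wd_comm hJ w v]

lemma sn_con {J : LL n →ₗ[ℝ] XS n} (hJ : ∀ p u, Ld p (J (io u)) = J (io (Ld p u)))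
    (hc : ∀ u, ip (J (io u)) (J (io u)) ≤ ip u u) (m : ℕ) (u : XS n) :
    sn m (J (io u)) ≤ sn m u := by
  rw [sn_eq, sn_eq]
  refine Finset.sum_le_sum fun w _ => ?_
  rw [wd_comm hJ w u]
  exact hc _

lemma sum_words (m : ℕ) (u : XS n) :
    ∑ w ∈ Wle m, ∑ p, ip (Ld p (Wd w u)) (Ld p (Wd w u)) ≤ sn (m + 1) u := by
  rw [sn_eq]
  have h1 : ∑ w ∈ Wle m, ∑ p, ip (Ld p (Wd w u)) (Ld p (Wd w u)) =
      ∑ w ∈ ((Wle m) ×ˢ (Finset.univ : Finset (KK n))).image (fun q => q.2 :: q.1),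
        ip (Wd w u) (Wd w u) := by
    rw [Finset.sum_image]
    · rw [Finset.sum_product]
      rfl
    · intro a _ b _ hab
      have h2 := List.cons.inj hab
      exact Prod.ext h2.2 h2.1
  rw [h1]
  refine Finset.sum_le_sum_of_subset_of_nonneg (fun w hw => ?_) fun w _ _ => ip_nonneg _
  rw [Finset.mem_image] at hw
  obtain ⟨q, hq, rfl⟩ := hw
  rw [Finset.mem_product] at hq
  rw [mem_Wle]
  have := mem_Wle.1 hq.1
  simp only [List.length_cons]
  omega

lemma sn_err {J : LL n →ₗ[ℝ] XS n} {e : ℝ} (hJ : ∀ p u, Ld p (J (io u)) = J (io (Ld p u)))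
    (he : ∀ u, ip (J (io u) - u) (J (io u) - u) ≤ e ^ 2 * ∑ p, ip (Ld p u) (Ld p u))
    (m : ℕ) (u : XS n) : sn m (J (io u) - u) ≤ e ^ 2 * sn (m + 1) u := by
  have h1 : sn m (J (io u) - u) ≤
      e ^ 2 * ∑ w ∈ Wle m, ∑ p, ip (Ld p (Wd w u)) (Ld p (Wd w u)) := by
    rw [sn_eq, Finset.mul_sum]
    refine Finset.sum_le_sum fun w _ => ?_
    rw [map_sub, wd_comm hJ w u]
    exact he _
  exact h1.trans (mul_le_mul_of_nonneg_left (sum_words m u) (sq_nonneg _))

/-- The norm of `io u`. -/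
lemma norm_io (u : XS n) : ‖io u‖ ^ 2 ≤ ip u u := by
  have h1 : ‖io u‖ ^ 2 = ∫ x in Metric.ball (0 : EE n) 1, ext u.1 x * ext u.1 x := by
    rw [← real_inner_self_eq_norm_sq, L2.inner_def]
    refine integral_congr_ae ?_
    have h2 : (io u : EE n → ℝ) =ᵐ[volume.restrict (Metric.ball (0 : EE n) 1)] ext u.1 :=
      (memLp_val u).coeFn_toLp
    filter_upwards [h2] with x hx
    rw [hx]
    simp [sq]
  rw [h1, ip_apply, integ]
  have h3 : 0 ≤ ∫ x in Metric.ball (0 : EE n) 1, ext u.1 x * ext u.1 x :=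
    integral_nonneg fun x => mul_self_nonneg _
  have h4 : (0 : ℝ) ≤ n := Nat.cast_nonneg n
  nlinarith

lemma norm_pi_sq_le {ι : Type} [Fintype ι] (h : ι → LL n) : ‖h‖ ^ 2 ≤ ∑ i, ‖h i‖ ^ 2 := by
  have h0 : 0 ≤ ∑ i, ‖h i‖ ^ 2 := Finset.sum_nonneg fun i _ => sq_nonneg _
  have h1 : ‖h‖ ≤ Real.sqrt (∑ i, ‖h i‖ ^ 2) := by
    rw [pi_norm_le_iff_of_nonneg (Real.sqrt_nonneg _)]
    intro i
    apply Real.le_sqrt_of_sq_le
    exact Finset.single_le_sum (f := fun i => ‖h i‖ ^ 2) (fun i _ => sq_nonneg _)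
      (Finset.mem_univ i)
  calc ‖h‖ ^ 2 ≤ Real.sqrt (∑ i, ‖h i‖ ^ 2) ^ 2 := by gcongr
    _ = _ := Real.sq_sqrt h0

section

variable {ι : Type} [Fintype ι]

/-- The forms. -/
noncomputable def BS (m : ℕ) : (ι → XS n) →ₗ[ℝ] (ι → XS n) →ₗ[ℝ] ℝ :=
  ∑ i, (bf m).compl₁₂ (LinearMap.proj i) (LinearMap.proj i)

lemma BS_apply (m : ℕ) (y z : ι → XS n) : BS m y z = ∑ i, bf m (y i) (z i) := by
  simp only [BS, LinearMap.sum_apply]
  rfl

lemma BS_self (m : ℕ) (y : ι → XS n) : BS m y y = ∑ i, sn m (y i) := BS_apply m y y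

lemma le_BS (m : ℕ) (y : ι → XS n) (i : ι) : sn m (y i) ≤ BS m y y := by
  rw [BS_self]
  exact Finset.single_le_sum (f := fun i => sn m (y i)) (fun i _ => sn_nonneg _ _)
    (Finset.mem_univ i)

lemma BS_nonneg (m : ℕ) (y : ι → XS n) : 0 ≤ BS m y y := by
  rw [BS_self]
  exact Finset.sum_nonneg fun i _ => sn_nonneg _ _

/-- The map to `LL`. -/
noncomputable def ioS : (ι → XS n) →ₗ[ℝ] (ι → LL n) :=
  LinearMap.pi fun i => io ∘ₗ LinearMap.proj i

/-- The projections. -/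
noncomputable def JS (J : LL n →ₗ[ℝ] XS n) : (ι → LL n) →ₗ[ℝ] (ι → XS n) :=
  LinearMap.pi fun i => J ∘ₗ LinearMap.proj i

end

theorem scy : G_SCY := by
  intro hPRJ hPOL hSOB hWCV hCMS n hn ι _
  obtain ⟨J, hJ, hs, hc, he, hb⟩ := hPRJ hPOL n hn
  obtain ⟨hcomp, hint⟩ := hCMS hSOB hWCV n
  choose Cb hCb using hb
  refine ⟨{ B := BS
            ι := ioS
            J := fun N => JS (J N)
            ε := fun N => 1 / ((N : ℝ) + 1)
            symm := ?_
            nonneg := fun m x => BS_nonneg m x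
            mono := ?_
            complete := ?_
            interp := ?_
            bι := ?_
            bJ := ?_
            symJ := ?_
            conJ := ?_
            errJ := ?_
            hε := tendsto_one_div_add_atTop_nhds_zero_nat }, fun m y z => BS_apply m y z⟩
  · intro m x y
    rw [BS_apply, BS_apply]
    exact Finset.sum_congr rfl fun i _ => bf_comm _ _ _
  · intro m x
    rw [BS_self, BS_self]
    exact Finset.sum_le_sum fun i _ => sn_mono (by omega) _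
  · intro x hx
    have h1 : ∀ i, ∃ y, ∀ m, Tendsto (fun N => sn m (x N i - y)) atTop (𝓝 0) := by
      intro i
      apply hcomp (fun N => x N i)
      intro m δ hδ
      obtain ⟨n0, h0⟩ := hx m δ hδ
      refine ⟨n0, fun N hN k hk => ?_⟩
      exact (le_BS m (x N - x k) i).trans (h0 N hN k hk)
    choose y hy using h1
    refine ⟨y, fun m => ?_⟩
    have h2 := tendsto_finsetSum (Finset.univ : Finset ι) (fun i _ => hy i m)
    rw [Finset.sum_const_zero] at h2
    refine h2.congr fun N => ?_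
    rw [BS_self]
    rfl
  · intro m
    obtain ⟨C, hC⟩ := hint m
    refine ⟨2 * m, (Fintype.card ι : ℝ) * ((Fintype.card ι : ℝ) * |C|), fun x => ?_⟩
    set A := BS 0 x x with hA
    set B' := BS (2 * m) x x with hB
    have hA0 : 0 ≤ A := BS_nonneg 0 x
    have hB0 : 0 ≤ B' := BS_nonneg _ x
    have h1 : ∀ i, sn m (x i) ^ 2 ≤ |C| * (A * B') := by
      intro i
      have e1 := hC (x i)
      have e2 : sn 0 (x i) ≤ A := le_BS 0 x i
      have e3 : sn (2 * m) (x i) ≤ B' := le_BS (2 * m) x i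
      have e4 : C * sn 0 (x i) * sn (2 * m) (x i) ≤ |C| * (sn 0 (x i) * sn (2 * m) (x i)) := by
        rw [mul_assoc]
        exact mul_le_mul_of_nonneg_right (le_abs_self _)
          (mul_nonneg (sn_nonneg _ _) (sn_nonneg _ _))
      have e5 : sn 0 (x i) * sn (2 * m) (x i) ≤ A * B' :=
        mul_le_mul e2 e3 (sn_nonneg _ _) hA0
      exact (e1.trans e4).trans (mul_le_mul_of_nonneg_left e5 (abs_nonneg _))
    have h2 := sq_sum_le_card_mul_sum_sq (s := (Finset.univ : Finset ι))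
      (f := fun i => sn m (x i))
    rw [← BS_self] at h2
    have h3 : ∑ i, sn m (x i) ^ 2 ≤ (Fintype.card ι : ℝ) * (|C| * (A * B')) := by
      have h5 := Finset.sum_le_card_nsmul (Finset.univ : Finset ι) (fun i => sn m (x i) ^ 2) _
        fun i _ => h1 i
      simpa using h5
    have h4 : (0 : ℝ) ≤ Fintype.card ι := Nat.cast_nonneg _
    calc BS m x x ^ 2 ≤ (Fintype.card ι : ℝ) * ∑ i, sn m (x i) ^ 2 := by
          simpa using h2
      _ ≤ (Fintype.card ι : ℝ) * ((Fintype.card ι : ℝ) * (|C| * (A * B'))) :=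
          mul_le_mul_of_nonneg_left h3 h4
      _ = (Fintype.card ι : ℝ) * ((Fintype.card ι : ℝ) * |C|) * A * B' := by ring
  · refine ⟨1, fun x => ?_⟩
    rw [one_mul, BS_self]
    refine (norm_pi_sq_le _).trans (Finset.sum_le_sum fun i _ => ?_)
    refine (norm_io (x i)).trans ?_
    rw [← sn_zero]
  · intro N m
    refine ⟨(Fintype.card ι : ℝ) * |Cb N m|, fun h => ?_⟩
    have h1 : ∀ i, sn m (JS (J N) h i) ≤ |Cb N m| * ‖h‖ ^ 2 := by
      intro i
      have e1 : sn m (JS (J N) h i) ≤ Cb N m * ‖h i‖ ^ 2 := hCb N m (h i)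
      have e2 : ‖h i‖ ≤ ‖h‖ := norm_le_pi_norm h i
      calc sn m (JS (J N) h i) ≤ Cb N m * ‖h i‖ ^ 2 := e1
        _ ≤ |Cb N m| * ‖h i‖ ^ 2 :=
            mul_le_mul_of_nonneg_right (le_abs_self _) (sq_nonneg _)
        _ ≤ |Cb N m| * ‖h‖ ^ 2 := by gcongr
    have h2 := Finset.sum_le_card_nsmul (Finset.univ : Finset ι)
      (fun i => sn m (JS (J N) h i)) _ fun i _ => h1 i
    rw [BS_self]
    refine h2.trans (le_of_eq ?_)
    rw [nsmul_eq_mul, Finset.card_univ]
    ring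
  · intro N m x y
    rw [BS_apply, BS_apply]
    exact Finset.sum_congr rfl fun i _ => bf_sym (hJ N) (hs N) _ _ _
  · intro N m x
    rw [BS_self, BS_self]
    exact Finset.sum_le_sum fun i _ => sn_con (hJ N) (hc N) _ _
  · intro N m x
    rw [BS_self, BS_self, Finset.mul_sum]
    exact Finset.sum_le_sum fun i _ => sn_err (hJ N) (he N) m (x i)

end Pool.Agent.Helper61.RN
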