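import Pool.Agent.Helper64.RN.Goals

/-!
# Project RN, packet SZ: the polynomial argument
-/

open scoped BigOperators

universe u

namespace Pool.Agent.Helper61.RN.SZ

open Module Pool.Agent.Helper64.IG Pool.Agent.Helper64.RN

section

variable {k K : Type u} [Field k] [Field K] [Algebra k K] {n p : ℕ}

/-- The generic form. -/
noncomputable def Phi (K : Type u) [Field K] (n p : ℕ) (a : Fin p → Ix n p) :
    MvPolynomial (Option (Ix n p ⊕ Ix n p)) K :=
  MvPolynomial.X none * Matrix.det (fun i j : Fin p =>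
    MvPolynomial.X (some (Sum.inl (a j))) * MvPolynomial.X (some (Sum.inr (a j))) ^ (i : ℕ))

theorem eval_Phi (x : Option (Ix n p ⊕ Ix n p) → K) (a : Fin p → Ix n p) :
    MvPolynomial.eval x (Phi K n p a) = x none * Matrix.det (fun i j : Fin p =>
      x (some (Sum.inl (a j))) * x (some (Sum.inr (a j))) ^ (i : ℕ)) := by
  unfold Phi
  rw [map_mul, MvPolynomial.eval_X, RingHom.map_det]
  congr 2
  ext i j
  simp [RingHom.mapMatrix_apply]

theorem eval_F (f : MvPolynomial (Fin p → Ix n p) k) (x : Option (Ix n p ⊕ Ix n p) → K) :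
    MvPolynomial.eval x (MvPolynomial.aeval (Phi K n p) f) =
      MvPolynomial.aeval (fun a => MvPolynomial.eval x (Phi K n p a)) f := by
  have h := MvPolynomial.comp_aeval (R := k) (f := Phi K n p)
    ((MvPolynomial.aeval x : MvPolynomial (Option (Ix n p ⊕ Ix n p)) K →ₐ[K] K).restrictScalars k)
  have h1 := congrArg (fun φ => φ f) h
  simpa [MvPolynomial.aeval_eq_eval, MvPolynomial.coe_aeval_eq_eval] using h1

end

theorem t : S_SZ.{u} := by
  classical
  intro k K _ _ _ _ n p f ⟨ω, ⟨c, t, z, hω⟩, hne⟩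
  set F := MvPolynomial.aeval (Phi K n p) f with hF
  have hF0 : F ≠ 0 := by
    intro h
    apply hne
    have h1 := eval_F (K := K) f (fun w => match w with
      | none => c
      | some (Sum.inl e) => t e
      | some (Sum.inr e) => z e)
    rw [← hF, h, map_zero] at h1
    rw [h1]
    congr 2
    funext a
    rw [eval_Phi, hω a]
  set G1 : MvPolynomial (Option (Ix n p ⊕ Ix n p)) K :=
    ∏ e : Ix n p, MvPolynomial.X (some (Sum.inl e)) with hG1
  set G2 : MvPolynomial (Option (Ix n p ⊕ Ix n p)) K :=
    ∏ e : Ix n p, ∏ e' ∈ Finset.univ.filter (fun e' => e' ≠ e),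
      (MvPolynomial.X (some (Sum.inr e)) - MvPolynomial.X (some (Sum.inr e'))) with hG2
  set G := F * MvPolynomial.X none * G1 * G2 with hG
  have hG1n : G1 ≠ 0 := Finset.prod_ne_zero_iff.2 fun e _ => MvPolynomial.X_ne_zero _
  have hG2n : G2 ≠ 0 := by
    refine Finset.prod_ne_zero_iff.2 fun e _ => Finset.prod_ne_zero_iff.2 fun e' he' => ?_
    rw [sub_ne_zero]
    intro h
    have h1 := MvPolynomial.X_injective (R := K) h
    have h2 : e = e' := Sum.inr_injective (Option.some_injective _ h1)
    exact (Finset.mem_filter.1 he').2 h2.symm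
  have hGn : G ≠ 0 :=
    mul_ne_zero (mul_ne_zero (mul_ne_zero hF0 (MvPolynomial.X_ne_zero _)) hG1n) hG2n
  refine ⟨G.totalDegree + 1, fun Z hZ => ?_⟩
  obtain ⟨Z', hZ'⟩ := Infinite.exists_subset_card_eq K (G.totalDegree + 1)
  by_contra hcon
  push Not at hcon
  apply hGn
  refine MvPolynomial.eq_zero_of_eval_zero_at_prod_finset G
    (fun w => match w with
      | none => Z'
      | some (Sum.inl _) => Z'
      | some (Sum.inr _) => Z) ?_ ?_
  · intro w
    have h1 : MvPolynomial.degreeOf w G < G.totalDegree + 1 :=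
      Nat.lt_succ_of_le (MvPolynomial.degreeOf_le_totalDegree _ _)
    rcases w with _ | w | w
    · rw [hZ']; exact h1
    · rw [hZ']; exact h1
    · exact lt_of_lt_of_le h1 hZ
  · intro x hx
    by_contra h
    rw [hG, map_mul, map_mul, map_mul, MvPolynomial.eval_X] at h
    have hx4 := right_ne_zero_of_mul h
    have hx3 := right_ne_zero_of_mul (left_ne_zero_of_mul h)
    have hx2 := right_ne_zero_of_mul (left_ne_zero_of_mul (left_ne_zero_of_mul h))
    have hx1 := left_ne_zero_of_mul (left_ne_zero_of_mul (left_ne_zero_of_mul h))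
    have h5 := hcon (x none) (fun e => x (some (Sum.inl e))) (fun e => x (some (Sum.inr e))) hx2 ?_ ?_ ?_
    · apply hx1
      rw [hF, eval_F, ← h5]
      congr 2
      funext a
      exact eval_Phi x a
    · intro e
      rw [hG1, map_prod] at hx3
      have := Finset.prod_ne_zero_iff.1 hx3 e (Finset.mem_univ _)
      rwa [MvPolynomial.eval_X] at this
    · intro e e' hee
      by_contra hne'
      rw [hG2, map_prod] at hx4
      have h6 := Finset.prod_ne_zero_iff.1 hx4 e (Finset.mem_univ _)
      rw [map_prod] at h6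
      have h7 := Finset.prod_ne_zero_iff.1 h6 e'
        (Finset.mem_filter.2 ⟨Finset.mem_univ _, fun h8 => hne' h8.symm⟩)
      apply h7
      rw [map_sub, MvPolynomial.eval_X, MvPolynomial.eval_X]
      exact sub_eq_zero.2 hee
    · intro e
      exact hx (some (Sum.inr e))

end Pool.Agent.Helper61.RN.SZ
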